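import Pool.Agent.Helper57.ZF.Goals

/-! Packet ZF BLK. -/

set_option autoImplicit false

namespace Pool.Agent.Helper48.ZF

open Pool.Agent.Helper57.ZF

theorem exists_block (α : Type) (Q : Finset α) (f : α → ℝ) (t : ℕ) (ht : t ≤ Q.card) :
    ∃ B ⊆ Q, B.card = t ∧ ∀ x ∈ B, ∀ y ∈ Q, y ∉ B → f x ≤ f y := by
  classical
  induction t with
  | zero => exact ⟨∅, by simp, by simp, by simp⟩
  | succ t ih =>
    obtain ⟨B, hBQ, hBc, hB⟩ := ih (by omega)
    have hne : (Q \ B).Nonempty := by
      rw [← Finset.card_pos, Finset.card_sdiff_of_subset hBQ]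
      omega
    obtain ⟨m, hm, hmin⟩ := Finset.exists_min_image (Q \ B) f hne
    rw [Finset.mem_sdiff] at hm
    refine ⟨insert m B, ?_, ?_, ?_⟩
    · intro x hx
      rw [Finset.mem_insert] at hx
      rcases hx with rfl | hx
      · exact hm.1
      · exact hBQ hx
    · rw [Finset.card_insert_of_notMem hm.2, hBc]
    · intro x hx y hy hyn
      rw [Finset.mem_insert, not_or] at hyn
      rw [Finset.mem_insert] at hx
      rcases hx with rfl | hx
      · exact hmin y (Finset.mem_sdiff.2 ⟨hy, hyn.2⟩)
      · exact hB x hx y hy hyn.2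

theorem blk_aux (α : Type) (f : α → ℝ) (t : ℕ) (ht : 0 < t) (n : ℕ) : ∀ Q : Finset α, Q.card = n →
    ∃ (k : ℕ) (B : ℕ → Finset α), (∀ i < k, B i ⊆ Q ∧ (B i).card = t) ∧
    (∀ i < k, ∀ j < k, i < j → Disjoint (B i) (B j) ∧ ∀ x ∈ B i, ∀ y ∈ B j, f x ≤ f y) ∧
    Q.card < t * (k + 1) := by
  classical
  induction n using Nat.strong_induction_on with
  | _ n ih =>
    intro Q hQ
    by_cases hlt : Q.card < t
    · exact ⟨0, fun _ => ∅, by simp, by simp, by simpa using hlt⟩
    · have hle : t ≤ Q.card := not_lt.1 hlt
      obtain ⟨B0, hB0Q, hB0c, hB0⟩ := exists_block α Q f t hle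
      have hc : (Q \ B0).card = Q.card - t := by
        rw [Finset.card_sdiff_of_subset hB0Q, hB0c]
      obtain ⟨k, B, h1, h2, h3⟩ := ih (Q \ B0).card (by omega) (Q \ B0) rfl
      refine ⟨k + 1, fun i => if i = 0 then B0 else B (i - 1), ?_, ?_, ?_⟩
      · intro i hi
        rcases Nat.eq_zero_or_pos i with rfl | hpos
        · simpa using ⟨hB0Q, hB0c⟩
        · have hne : i ≠ 0 := by omega
          simp only [hne, if_false]
          have := h1 (i - 1) (by omega)
          exact ⟨this.1.trans Finset.sdiff_subset, this.2⟩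
      · intro i hi j hj hij
        have hj0 : j ≠ 0 := by omega
        simp only [hj0, if_false]
        have hBj := (h1 (j - 1) (by omega)).1
        rcases Nat.eq_zero_or_pos i with rfl | hpos
        · simp only [if_true]
          constructor
          · rw [Finset.disjoint_left]
            intro x hx hxj
            exact (Finset.mem_sdiff.1 (hBj hxj)).2 hx
          · intro x hx y hy
            have := Finset.mem_sdiff.1 (hBj hy)
            exact hB0 x hx y this.1 this.2
        · have hne : i ≠ 0 := by omega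
          simp only [hne, if_false]
          exact h2 (i - 1) (by omega) (j - 1) (by omega) (by omega)
      · rw [hc] at h3
        have : t * (k + 1 + 1) = t * (k + 1) + t := by ring
        rw [this]
        omega

theorem BLK : G_BLK := by
  intro α Q f t ht
  exact blk_aux α f t ht Q.card Q rfl

end Pool.Agent.Helper48.ZF
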